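import Pool.Agent.helper41.Sch.Defs

set_option autoImplicit false

/-! Module CB1: normal form of a convex function which is affine on a segment. -/

open scoped Pointwise ContDiff
open MeasureTheory Set Filter Topology

namespace Pool.Agent.helper41.Sch

/-- slope zero on the side `σ` of the segment `{0} × [-s, s]` -/
def ZeroSlope (f : P → ℝ) (s σ : ℝ) : Prop :=
  ∀ ε > 0, ∃ t > 0, ∀ τ, 0 < τ → τ < t → ∀ x, |x| ≤ s → f (σ * τ, x) ≤ ε * τ

private theorem CB1_conv {f : P → ℝ} (hf : ConvexOn ℝ univ f) (x y : P) (p q : ℝ) (hp : 0 ≤ p)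
    (hq : 0 ≤ q) (hpq : p + q = 1) : f (p • x + q • y) ≤ p * f x + q * f y := by
  have := hf.2 (mem_univ x) (mem_univ y) hp hq hpq
  rwa [smul_eq_mul, smul_eq_mul] at this

private theorem CB1_affine {f : P → ℝ} (hf : ConvexOn ℝ univ f) {e : ℝ} (he : 0 < e)
    (hflat : f (0, e) + f (0, -e) = 2 * f 0) {t : ℝ} (ht : |t| ≤ e) :
    f (0, t) = f 0 + (f (0, e) - f 0) / e * t := by
  have hup : ∀ t : ℝ, |t| ≤ e → f (0, t) ≤ f 0 + (f (0, e) - f 0) / e * t := by
    intro t ht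
    obtain ⟨h1, h2⟩ := abs_le.1 ht
    have := CB1_conv hf (0, e) (0, -e) ((e + t) / (2 * e)) ((e - t) / (2 * e))
      (div_nonneg (by linarith) (by positivity))
      (div_nonneg (by linarith) (by positivity)) (by field_simp; ring)
    have hpt : ((e + t) / (2 * e)) • ((0 : ℝ), e) + ((e - t) / (2 * e)) • ((0 : ℝ), -e)
        = ((0 : ℝ), t) := by
      refine Prod.ext (by simp) ?_
      simp only [Prod.snd_add, Prod.smul_snd, smul_eq_mul]
      field_simp
      ring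
    rw [hpt] at this
    refine this.trans (le_of_eq ?_)
    have h3 : f (0, -e) = 2 * f 0 - f (0, e) := by linarith
    rw [h3]
    field_simp
    ring
  apply le_antisymm (hup t ht)
  have h1 := hup (-t) (by rwa [abs_neg])
  have h2 := hf.2 (mem_univ (0, t)) (mem_univ (0, -t)) (by norm_num : (0 : ℝ) ≤ 1 / 2)
    (by norm_num : (0 : ℝ) ≤ 1 / 2) (by norm_num)
  have hpt : (1 / 2 : ℝ) • ((0 : ℝ), t) + (1 / 2 : ℝ) • ((0 : ℝ), -t) = (0 : P) := by
    refine Prod.ext (by simp) ?_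
    simp
  rw [hpt, smul_eq_mul, smul_eq_mul] at h2
  linarith

private theorem CB1_slope {g : P → ℝ} (hg : ConvexOn ℝ univ g) (hg0 : g 0 = 0) {s e σ : ℝ}
    (hs : s = e / 2) (hge : ∀ t, |t| ≤ e → g (0, t) = 0)
    (H : ∀ ε > 0, ∃ τ₀ > 0, g (σ * τ₀, 0) ≤ ε * τ₀) : ZeroSlope g s σ := by
  intro ε hε
  obtain ⟨τ₀, hτ₀, h0⟩ := H ε hε
  refine ⟨τ₀ / 2, by positivity, ?_⟩
  intro τ hτ hτ2 x hx
  have h1 := hg.2 (mem_univ (σ * (2 * τ), (0 : ℝ))) (mem_univ (0, 2 * x))
    (by norm_num : (0 : ℝ) ≤ 1 / 2) (by norm_num : (0 : ℝ) ≤ 1 / 2) (by norm_num)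
  have e1 : (1 / 2 : ℝ) • (σ * (2 * τ), (0 : ℝ)) + (1 / 2 : ℝ) • ((0 : ℝ), 2 * x) = (σ * τ, x) := by
    refine Prod.ext ?_ ?_
    · simp only [Prod.fst_add, Prod.smul_fst, smul_eq_mul]; ring
    · simp only [Prod.snd_add, Prod.smul_snd, smul_eq_mul]; ring
  rw [e1, hge (2 * x) (by rw [abs_mul, abs_two]; linarith), smul_zero, add_zero, smul_eq_mul] at h1
  have h2 := CB1_conv hg (σ * τ₀, (0 : ℝ)) 0 (2 * τ / τ₀) (1 - 2 * τ / τ₀) (by positivity)
    (by rw [sub_nonneg, div_le_one hτ₀]; linarith) (by ring)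
  have e2 : (2 * τ / τ₀) • (σ * τ₀, (0 : ℝ)) + (1 - 2 * τ / τ₀) • (0 : P) = (σ * (2 * τ), 0) := by
    refine Prod.ext ?_ ?_
    · simp only [Prod.fst_add, Prod.smul_fst, smul_eq_mul, Prod.fst_zero]
      field_simp
      ring
    · simp
  rw [e2, hg0, mul_zero, add_zero] at h2
  have h3 : 2 * τ / τ₀ * g (σ * τ₀, 0) ≤ 2 * τ / τ₀ * (ε * τ₀) :=
    mul_le_mul_of_nonneg_left h0 (by positivity)
  have h4 : 2 * τ / τ₀ * (ε * τ₀) = 2 * (ε * τ) := by field_simp
  linarith

theorem normalize {f : P → ℝ} (hf : LC f) (h0 : FlatAt f 0 ((0 : ℝ), (1 : ℝ))) :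
    ∃ (a : P) (s : ℝ), 0 < s ∧ (∀ x, 0 ≤ f x - dot a x - f 0) ∧
      (∀ t, |t| ≤ s → f (0, t) - dot a (0, t) - f 0 = 0) ∧
      ZeroSlope (fun x => f x - dot a x - f 0) s (-1) ∧
      (ZeroSlope (fun x => f x - dot a x - f 0) s 1 ∨
        ∃ J > 0, ∀ x : P, J * x.1 ≤ f x - dot a x - f 0) := by
  obtain ⟨hconv, K, hK⟩ := hf
  obtain ⟨e, he, hflat⟩ := h0
  have he : (0 : ℝ) < e := he
  have hflat' : f (0, e) + f (0, -e) = 2 * f 0 := by
    have e1 : (0 : P) + e • ((0 : ℝ), (1 : ℝ)) = (0, e) := by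
      refine Prod.ext ?_ ?_ <;> simp
    have e2 : (0 : P) - e • ((0 : ℝ), (1 : ℝ)) = (0, -e) := by
      refine Prod.ext ?_ ?_ <;> simp
    rwa [e1, e2] at hflat
  set κ := (f (0, e) - f 0) / e with hκ
  have haff : ∀ t : ℝ, |t| ≤ e → f (0, t) = f 0 + κ * t := fun t ht =>
    CB1_affine hconv he hflat' ht
  -- the function on the first axis
  set u : ℝ → ℝ := fun τ => f (τ, 0) - f 0 with hu
  have hu0 : u 0 = 0 := by
    have : ((0 : ℝ), (0 : ℝ)) = (0 : P) := rfl
    simp [hu, this]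
  have huK : ∀ τ, |u τ| ≤ K * |τ| := by
    intro τ
    have := hK.dist_le_mul (τ, 0) 0
    rw [Real.dist_eq, dist_zero_right] at this
    refine this.trans (le_of_eq ?_)
    congr 1
    simp [Prod.norm_def]
  -- comparison of the slopes
  have hcomp : ∀ τ τ' : ℝ, 0 < τ → 0 < τ' → -u (-τ) / τ ≤ u τ' / τ' := by
    intro τ τ' hτ hτ'
    have h1 := CB1_conv hconv (-τ, (0 : ℝ)) (τ', (0 : ℝ)) (τ' / (τ + τ')) (τ / (τ + τ'))
      (by positivity) (by positivity) (by field_simp; ring)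
    have e1 : (τ' / (τ + τ')) • (-τ, (0 : ℝ)) + (τ / (τ + τ')) • (τ', (0 : ℝ)) = (0 : P) := by
      refine Prod.ext ?_ ?_
      · simp only [Prod.fst_add, Prod.smul_fst, smul_eq_mul, Prod.fst_zero]
        field_simp
        ring
      · simp
    rw [e1] at h1
    have hsum : 0 < τ + τ' := by positivity
    have h2 : f 0 * (τ + τ') ≤ τ' * f (-τ, 0) + τ * f (τ', 0) := by
      have := mul_le_mul_of_nonneg_right h1 hsum.le
      refine this.trans (le_of_eq ?_)
      field_simp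
    rw [div_le_div_iff₀ hτ hτ']
    simp only [hu]
    linarith
  set A : Set ℝ := {y | ∃ τ : ℝ, 0 < τ ∧ y = -u (-τ) / τ} with hA
  set Bs : Set ℝ := {y | ∃ τ : ℝ, 0 < τ ∧ y = u τ / τ} with hBs
  have hAne : A.Nonempty := ⟨_, 1, one_pos, rfl⟩
  have hBne : Bs.Nonempty := ⟨_, 1, one_pos, rfl⟩
  have hAbdd : BddAbove A := ⟨u 1 / 1, by
    rintro _ ⟨τ, hτ, rfl⟩
    exact hcomp τ 1 hτ one_pos⟩
  have hBbdd : BddBelow Bs := ⟨-u (-1) / 1, by
    rintro _ ⟨τ, hτ, rfl⟩
    exact hcomp 1 τ one_pos hτ⟩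
  set α := sSup A with hα
  set β := sInf Bs with hβ
  have hαβ : α ≤ β := csSup_le hAne fun y ⟨τ, hτ, hy⟩ => le_csInf hBne fun y' ⟨τ', hτ', hy'⟩ => by
    rw [hy, hy']
    exact hcomp τ τ' hτ hτ'
  have hleft : ∀ τ : ℝ, 0 < τ → -(α * τ) ≤ u (-τ) := by
    intro τ hτ
    have := le_csSup hAbdd ⟨τ, hτ, rfl⟩
    rw [← hα, div_le_iff₀ hτ] at this
    linarith
  have hright : ∀ τ : ℝ, 0 < τ → β * τ ≤ u τ := by
    intro τ hτ
    have := csInf_le hBbdd ⟨τ, hτ, rfl⟩
    rwa [← hβ, le_div_iff₀ hτ] at this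
  -- reduction to the first axis
  have hred : ∀ x : P, ∃ l : ℝ, 0 < l ∧ u (l * x.1) ≤ l * (f x - κ * x.2 - f 0) := by
    intro x
    set l := min (1 / 2) (e / (2 * (|x.2| + 1))) with hl
    have hx2 : 0 ≤ |x.2| := abs_nonneg _
    have hl0 : 0 < l := lt_min (by norm_num) (by positivity)
    have hl1 : l ≤ 1 / 2 := min_le_left _ _
    have hl2 : l * (2 * (|x.2| + 1)) ≤ e := by
      have := min_le_right (1 / 2) (e / (2 * (|x.2| + 1)))
      rwa [← hl, le_div_iff₀ (by positivity)] at this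
    refine ⟨l, hl0, ?_⟩
    have h1l : 0 < 1 - l := by linarith
    set t := -(l * x.2) / (1 - l) with ht
    have hte : |t| ≤ e := by
      rw [ht, abs_div, abs_neg, abs_mul, abs_of_pos hl0, abs_of_pos h1l, div_le_iff₀ h1l]
      nlinarith
    have h1 := hconv.2 (mem_univ x) (mem_univ (0, t)) hl0.le h1l.le (by ring)
    have e1 : l • x + (1 - l) • ((0 : ℝ), t) = (l * x.1, (0 : ℝ)) := by
      refine Prod.ext ?_ ?_
      · simp
      · simp only [Prod.snd_add, Prod.smul_snd, smul_eq_mul, ht]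
        field_simp
        ring
    rw [e1, haff t hte, smul_eq_mul, smul_eq_mul] at h1
    have h2 : (1 - l) * (f 0 + κ * t) = (1 - l) * f 0 - κ * (l * x.2) := by
      rw [ht]; field_simp; ring
    rw [h2] at h1
    simp only [hu]
    linarith
  -- the two supporting inequalities
  have hsupp : ∀ x : P, α * x.1 ≤ f x - κ * x.2 - f 0 := by
    intro x
    obtain ⟨l, hl, hx⟩ := hred x
    have h1 : α * (l * x.1) ≤ u (l * x.1) := by
      rcases lt_trichotomy x.1 0 with h | h | h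
      · have := hleft (-(l * x.1)) (by nlinarith)
        rw [neg_neg] at this
        linarith
      · rw [h, mul_zero, hu0, mul_zero]
      · have h2 := hright (l * x.1) (by positivity)
        have h3 : α * (l * x.1) ≤ β * (l * x.1) := mul_le_mul_of_nonneg_right hαβ (by positivity)
        linarith
    have h2 : l * (α * x.1) ≤ l * (f x - κ * x.2 - f 0) := by linarith
    exact le_of_mul_le_mul_left h2 hl
  have hsupp2 : ∀ x : P, 0 < x.1 → β * x.1 ≤ f x - κ * x.2 - f 0 := by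
    intro x h
    obtain ⟨l, hl, hx⟩ := hred x
    have h2 := hright (l * x.1) (by positivity)
    have h3 : l * (β * x.1) ≤ l * (f x - κ * x.2 - f 0) := by linarith
    exact le_of_mul_le_mul_left h3 hl
  -- the normalized function
  set g : P → ℝ := fun x => f x - dot (α, κ) x - f 0 with hg
  have hgconv : ConvexOn ℝ univ g := by
    refine ⟨convex_univ, ?_⟩
    intro x _ y _ p q hp hq hpq
    have h1 := hconv.2 (mem_univ x) (mem_univ y) hp hq hpq
    simp only [hg, dot, smul_eq_mul, Prod.fst_add, Prod.snd_add, Prod.smul_fst, Prod.smul_snd] at h1 ⊢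
    have h2 : f 0 = p * f 0 + q * f 0 := by rw [← add_mul, hpq, one_mul]
    nlinarith
  have hg0 : g 0 = 0 := by simp [hg, dot]
  have hge : ∀ t, |t| ≤ e → g (0, t) = 0 := by
    intro t ht
    simp only [hg, dot, mul_zero, zero_add]
    rw [haff t ht]
    ring
  have hgτ : ∀ τ : ℝ, g (τ, 0) = u τ - α * τ := by
    intro τ
    simp only [hg, dot, hu]
    ring
  refine ⟨(α, κ), e / 2, by positivity, ?_, ?_, ?_, ?_⟩
  · intro x
    have := hsupp x
    simp only [dot]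
    linarith
  · intro t ht
    exact hge t (ht.trans (by linarith))
  · refine CB1_slope hgconv hg0 rfl hge ?_
    intro ε hε
    obtain ⟨y, ⟨τ, hτ, rfl⟩, hy⟩ := exists_lt_of_lt_csSup hAne (show α - ε < sSup A by linarith)
    refine ⟨τ, hτ, ?_⟩
    rw [lt_div_iff₀ hτ] at hy
    rw [neg_one_mul, hgτ]
    linarith
  · rcases hαβ.eq_or_lt with h | h
    · left
      refine CB1_slope hgconv hg0 rfl hge ?_
      intro ε hε
      obtain ⟨y, ⟨τ, hτ, rfl⟩, hy⟩ := exists_lt_of_csInf_lt hBne (show sInf Bs < β + ε by linarith)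
      refine ⟨τ, hτ, ?_⟩
      rw [div_lt_iff₀ hτ] at hy
      rw [one_mul, hgτ, h]
      linarith
    · right
      refine ⟨β - α, by linarith, ?_⟩
      intro x
      simp only [dot]
      rcases lt_or_ge 0 x.1 with hx | hx
      · have := hsupp2 x hx
        linarith
      · have h1 := hsupp x
        have h2 : (β - α) * x.1 ≤ 0 := mul_nonpos_of_nonneg_of_nonpos (by linarith) hx
        linarith

end Pool.Agent.helper41.Sch
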