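import Pool.Agent.helper41.Sch.Defs

set_option autoImplicit false

/-! Module GL: gluing convex functions along a line on which both vanish. -/

open scoped Pointwise ContDiff
open MeasureTheory Set Filter Topology

namespace Pool.Agent.helper41.Sch

/-- the crossing point: from a point with `x.1 ≤ 0` to a point with `0 < y.1` -/
private theorem GL_aux {f f' : P → ℝ} {s : ℝ}
    (hf : ConvexOn ℝ {x : P | |x.2| < s} f) (hf' : ConvexOn ℝ {x : P | |x.2| < s} f')
    (h1 : ∀ x : P, |x.2| < s → 0 ≤ f x) (h2 : ∀ x : P, |x.2| < s → 0 ≤ f' x)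
    (h3 : ∀ t, |t| < s → f (0, t) = 0) (h4 : ∀ t, |t| < s → f' (0, t) = 0)
    {x y : P} (hx : |x.2| < s) (hy : |y.2| < s) (hx1 : x.1 ≤ 0) (hy1 : 0 < y.1)
    {a b : ℝ} (ha : 0 ≤ a) (hb : 0 ≤ b) (hab : a + b = 1) :
    (if (a • x + b • y).1 ≤ 0 then f (a • x + b • y) else f' (a • x + b • y))
      ≤ a * f x + b * f' y := by
  -- the crossing parameter `c x + d y`, `c x.1 + d y.1 = 0`
  have hden : 0 < y.1 - x.1 := by linarith
  set d := -x.1 / (y.1 - x.1) with hd
  set c := y.1 / (y.1 - x.1) with hc
  have hd0 : 0 ≤ d := div_nonneg (by linarith) hden.le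
  have hc0 : 0 < c := div_pos hy1 hden
  have hcd : c + d = 1 := by
    rw [hc, hd, ← add_div, div_eq_one_iff_eq hden.ne']
    ring
  have hz1 : c * x.1 + d * y.1 = 0 := by
    rw [hc, hd]; field_simp; ring
  set z : P := c • x + d • y with hz
  have hz0 : z = (0, z.2) := by
    refine Prod.ext ?_ rfl
    simpa [hz, smul_eq_mul] using hz1
  have hzs : z ∈ {x : P | |x.2| < s} := hf.1 hx hy hc0.le hd0 hcd
  have hzs' : |z.2| < s := hzs
  have hfz : f z = 0 := by rw [hz0]; exact h3 _ hzs'
  have hfz' : f' z = 0 := by rw [hz0]; exact h4 _ hzs'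
  have hfx := h1 x hx
  have hfy := h2 y hy
  split_ifs with hw
  · -- the point lies between `x` and `z`
    have hw1 : a * x.1 + b * y.1 ≤ 0 := by simpa [smul_eq_mul] using hw
    -- `a x + b y = (1 - r) x + r z`, `r d = b`
    rcases hd0.eq_or_lt with hd00 | hd00
    · -- then `x.1 = 0`, `d = 0`
      have hx0 : x.1 = 0 := by
        have : -x.1 / (y.1 - x.1) = 0 := by rw [← hd]; exact hd00.symm
        rcases div_eq_zero_iff.1 this with h | h
        · linarith
        · linarith
      have hb0 : b = 0 := by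
        rw [hx0] at hw1
        nlinarith
      have ha1 : a = 1 := by linarith
      rw [hb0, ha1]
      simp
    · set r := b / d with hr
      have hr0 : 0 ≤ r := div_nonneg hb hd0
      have hrd : r * d = b := by rw [hr]; field_simp
      have hr1 : r ≤ 1 := by
        rw [hr, div_le_one hd00, hd, le_div_iff₀ hden]
        have : a = 1 - b := by linarith
        rw [this] at hw1
        linarith
      have hpt : a • x + b • y = (1 - r) • x + r • z := by
        rw [hz, smul_add, smul_smul, smul_smul, hrd, ← add_assoc, ← add_smul]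
        congr 2
        have : c = 1 - d := by linarith
        rw [this]
        linarith
      rw [hpt]
      have := hf.2 hx hzs (by linarith : 0 ≤ 1 - r) hr0 (by ring)
      rw [hfz, smul_eq_mul, smul_eq_mul, mul_zero, add_zero] at this
      refine this.trans ?_
      have h5 : (1 - r) ≤ a := by
        have : d ≤ 1 := by linarith
        have : b ≤ r := by rw [← hrd]; nlinarith
        linarith
      nlinarith [mul_nonneg hb hfy, mul_le_mul_of_nonneg_right h5 hfx]
  · have hw1 : 0 < a * x.1 + b * y.1 := by simpa [smul_eq_mul] using hw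
    set r := a / c with hr
    have hr0 : 0 ≤ r := div_nonneg ha hc0.le
    have hrc : r * c = a := by rw [hr]; field_simp
    have hr1 : r ≤ 1 := by
      rw [hr, div_le_one hc0, hc, le_div_iff₀ hden]
      have : b = 1 - a := by linarith
      rw [this] at hw1
      linarith
    have hpt : a • x + b • y = (1 - r) • y + r • z := by
      rw [hz]
      refine Prod.ext ?_ ?_
      · simp only [Prod.fst_add, Prod.smul_fst, smul_eq_mul]
        linear_combination (-x.1 + y.1) * hrc + y.1 * hab - r * y.1 * hcd
      · simp only [Prod.snd_add, Prod.smul_snd, smul_eq_mul]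
        linear_combination (-x.2 + y.2) * hrc + y.2 * hab - r * y.2 * hcd
    rw [hpt]
    have := hf'.2 hy hzs (by linarith : 0 ≤ 1 - r) hr0 (by ring)
    rw [hfz', smul_eq_mul, smul_eq_mul, mul_zero, add_zero] at this
    refine this.trans ?_
    have h5 : (1 - r) ≤ b := by
      have : c ≤ 1 := by linarith
      have : a ≤ r := by rw [← hrc]; nlinarith
      linarith
    nlinarith [mul_nonneg ha hfx, mul_le_mul_of_nonneg_right h5 hfy]

theorem glue {f f' : P → ℝ} {s : ℝ} (hs : 0 < s)
    (hf : ConvexOn ℝ {x : P | |x.2| < s} f) (hf' : ConvexOn ℝ {x : P | |x.2| < s} f')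
    (h1 : ∀ x : P, |x.2| < s → 0 ≤ f x) (h2 : ∀ x : P, |x.2| < s → 0 ≤ f' x)
    (h3 : ∀ t, |t| < s → f (0, t) = 0) (h4 : ∀ t, |t| < s → f' (0, t) = 0) :
    ConvexOn ℝ {x : P | |x.2| < s} (fun x => if x.1 ≤ 0 then f x else f' x) := by
  have _ := hs
  refine ⟨hf.1, ?_⟩
  intro x hx y hy a b ha hb hab
  rcases le_or_gt x.1 0 with hx1 | hx1 <;> rcases le_or_gt y.1 0 with hy1 | hy1
  · have : (a • x + b • y).1 ≤ 0 := by
      simp only [Prod.fst_add, Prod.smul_fst, smul_eq_mul]
      nlinarith
    simp only [if_pos hx1, if_pos hy1, if_pos this]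
    exact hf.2 hx hy ha hb hab
  · simp only [if_pos hx1, if_neg (not_le.2 hy1), smul_eq_mul]
    exact GL_aux hf hf' h1 h2 h3 h4 hx hy hx1 hy1 ha hb hab
  · simp only [if_pos hy1, if_neg (not_le.2 hx1), smul_eq_mul]
    have := GL_aux hf hf' h1 h2 h3 h4 hy hx hy1 hx1 hb ha (by linarith : b + a = 1)
    rw [add_comm (b • y) (a • x)] at this
    linarith
  · simp only [if_neg (not_le.2 hx1), if_neg (not_le.2 hy1)]
    split_ifs with hw
    · -- impossible unless
      have : 0 < (a • x + b • y).1 := by
        simp only [Prod.fst_add, Prod.smul_fst, smul_eq_mul]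
        rcases ha.eq_or_lt with h | h
        · have hb1 : b = 1 := by linarith
          rw [← h, hb1]; linarith
        · nlinarith [mul_nonneg hb hy1.le, mul_pos h hx1]
      exact absurd hw (not_le.2 this)
    · exact hf'.2 hx hy ha hb hab

end Pool.Agent.helper41.Sch
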